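import Pool.Agent.Lib.MP_1b39b5_an.Perfect

open Pool.Agent.Lib.MP_1b39b5_an

namespace Pool.Agent.Results.MP_1b39b5_an.Perfect

/-- Being a subspace of a WCG space passes to preimages under proper maps of the weak topologies,
over the real or the complex field. -/
theorem result (𝕜 : Type) [RCLike 𝕜] (X Y : Type)
    [NormedAddCommGroup X] [NormedSpace 𝕜 X] [CompleteSpace X]
    [NormedAddCommGroup Y] [NormedSpace 𝕜 Y] [CompleteSpace Y]
    (hX : SubWCG 𝕜 X) (h : WeakSpace 𝕜 Y → WeakSpace 𝕜 X) (hh : IsProperMap h) : SubWCG 𝕜 Y :=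
  main_perfect X Y hX h hh

/-- The case of a homeomorphism: the question of the problem file. -/
theorem of_homeomorph (𝕜 : Type) [RCLike 𝕜] (X Y : Type)
    [NormedAddCommGroup X] [NormedSpace 𝕜 X] [CompleteSpace X]
    [NormedAddCommGroup Y] [NormedSpace 𝕜 Y] [CompleteSpace Y]
    (hX : SubWCG 𝕜 X) (h : Nonempty (WeakSpace 𝕜 X ≃ₜ WeakSpace 𝕜 Y)) : SubWCG 𝕜 Y :=
  h.elim fun e => result 𝕜 X Y hX e.symm e.symm.isProperMap

end Pool.Agent.Results.MP_1b39b5_an.Perfect
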